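import Mathlib
import Pool.Agent.H64.NC.SFZ
import Pool.Agent.H64.NC.PRT
import Pool.Agent.H56.UE.UEX
import Pool.Agent.H32.RB.Main
import Pool.Agent.H3.UP.EXU
import Pool.Agent.H3.UP.FTR
import Pool.Agent.H64.NC.PER
import Pool.Agent.H64.PE.PEF
import Pool.Agent.H39.HO.NP
import Pool.Agent.H39.EMB.Fin
import Pool.Agent.H56.ZE.Sph
import Pool.Agent.H56.ZE.Cnr
import Pool.Agent.H39.CTN.Per

/-!
# Persistent recurrence of the critical points in the Julia set and on the post-critical set

The work is in: `H3/NC` (no conical critical value, the Julia set is not the sphere: the limit of the functions of the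
push forward operator, `NER`, `UNI`, `PRC`, `MAIN`), `H78/NS`, `H31/NS`, `H66/NS` (the Julia set is the sphere),
`H64/NC` (charts, bounded velocities, conjugacies), `H64/PC`, `H57/CP`, `H44/CP`, `H57/CF`, `H64/PF`
(velocities of repelling cycles and of their preimages, the families), `H61/TT` (the kernel identity), `H79/ES`,
`H44/ND`, `H44/NR`, `H44/RC`, `H47/RJ`, `H47/PS` (locally maximal maps), `H76/SU` (Sullivan's theorem), `H64/MJ`,
`H64/MF`, `H56` (the Fatou set), `H56/UE` (upper exponents), `H3/UP` (first visits of the critical orbits), `H64/NC/PER`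
(periodic points), `H31/PP`, `H42/PR`, `H64/PE` (components of the post-critical set), `H56/TH`, `H41/TH`, `H44/TH`,
`H39/HO` (closed subsets which are mapped into themselves), `H39/EMB` (minimal sets), `H39/CTN` (conical limit points), `H56/ZE` (zero entropy).
-/

set_option autoImplicit false

namespace Pool.Agent.Results.MP_8f2e1c_an.PersistentRecurrence

open Polynomial Filter Topology

/-- `f` is the rational map `P/Q` on the sphere. -/
def IsMap (f : OnePoint ℂ → OnePoint ℂ) (P Q : Polynomial ℂ) : Prop :=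
  Continuous f ∧
    ∀ z : ℂ, Q.eval z ≠ 0 → f (OnePoint.some z) = OnePoint.some (P.eval z / Q.eval z)

/-- `c` is a critical point of `f`. -/
def IsCritical (f : OnePoint ℂ → OnePoint ℂ) (c : OnePoint ℂ) : Prop :=
  ¬ ∃ U ∈ nhds c, Set.InjOn f U

/-- `c` is attracted by an attracting cycle of `f` (words of the frozen statement `S05373`). -/
def IsAttracted (f : OnePoint ℂ → OnePoint ℂ) (c : OnePoint ℂ) : Prop :=
  ∃ z : OnePoint ℂ, ∃ n : ℕ, 0 < n ∧ f^[n] z = z ∧
    (∃ U ∈ nhds z, ∀ w ∈ U,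
      Filter.Tendsto (fun k : ℕ => f^[n * k] w) Filter.atTop (nhds z)) ∧
    Filter.Tendsto (fun k : ℕ => f^[n * k] c) Filter.atTop (nhds z)

/-- The number of the critical points which are attracted by attracting cycles. -/
noncomputable def attractedNumber (f : OnePoint ℂ → OnePoint ℂ) : ℕ :=
  {c : OnePoint ℂ | IsCritical f c ∧ IsAttracted f c}.ncard

/-- The chordal distance of the Riemann sphere. -/
noncomputable def chordal : OnePoint ℂ → OnePoint ℂ → ℝ
  | OnePoint.some z, OnePoint.some w => ‖z - w‖ / (√(1 + ‖z‖ ^ 2) * √(1 + ‖w‖ ^ 2))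
  | OnePoint.some z, OnePoint.infty => 1 / √(1 + ‖z‖ ^ 2)
  | OnePoint.infty, OnePoint.some w => 1 / √(1 + ‖w‖ ^ 2)
  | OnePoint.infty, OnePoint.infty => 0

/-- The Julia set of `f`: the points without a neighbourhood at whose points the iterates of `f` are
equicontinuous for the chordal distance. -/
def julia (f : OnePoint ℂ → OnePoint ℂ) : Set (OnePoint ℂ) :=
  (interior {x | ∀ ε : ℝ, 0 < ε → ∀ᶠ y in nhds x, ∀ n : ℕ, chordal (f^[n] x) (f^[n] y) < ε})ᶜ

/-- The open disc of radius `δ` at `x` for the chordal distance. -/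
def disc (x : OnePoint ℂ) (δ : ℝ) : Set (OnePoint ℂ) := {z | chordal z x < δ}

/-- The pull back of `E` at the time `k` along `x, f(x), .., f^n(x)`: the connected component of its preimage
under `f^(n-k)` which contains `f^k(x)`. -/
def pullback (f : OnePoint ℂ → OnePoint ℂ) (E : Set (OnePoint ℂ)) (x : OnePoint ℂ) (n k : ℕ) : Set (OnePoint ℂ) :=
  connectedComponentIn {z | f^[n - k] z ∈ E} (f^[k] x)

/-- The times `k < n` at which the pull back of `E` along `x, f(x), .., f^n(x)` contains a critical point. -/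
def criticalTimes (f : OnePoint ℂ → OnePoint ℂ) (E : Set (OnePoint ℂ)) (x : OnePoint ℂ) (n : ℕ) : Set ℕ :=
  {k | k < n ∧ ∃ c, IsCritical f c ∧ c ∈ pullback f E x n k}

/-- The upper Lyapunov exponent of `f` at `x` is positive: for some `q > 1` the iterate `f^n` locally
expands the chordal distance from `x` by the factor `q^n` for infinitely many `n`. -/
def HasPositiveUpperExponent (f : OnePoint ℂ → OnePoint ℂ) (x : OnePoint ℂ) : Prop :=
  ∃ q : ℝ, 1 < q ∧ ∃ᶠ n : ℕ in atTop,
    ∀ᶠ y in 𝓝 x, q ^ n * chordal x y ≤ chordal (f^[n] x) (f^[n] y)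

/-- The closure of the set of all `f^n(c)`, `n ≥ 1`, `c` a critical point in the Julia set. -/
def postcritical (f : OnePoint ℂ → OnePoint ℂ) : Set (OnePoint ℂ) :=
  closure {y | ∃ c, IsCritical f c ∧ c ∈ julia f ∧ ∃ n : ℕ, 1 ≤ n ∧ f^[n] c = y}

/-- The limit set of the orbit of `x`. -/
def limitSet (f : OnePoint ℂ → OnePoint ℂ) (x : OnePoint ℂ) : Set (OnePoint ℂ) :=
  {y | MapClusterPt y atTop fun n : ℕ => f^[n] x}

/-- Every critical point `c` in the Julia set is persistently recurrent: the number of critical times of the disc of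
radius `δ` at `f^n(v)`, `v = f(c)`, along `v, .., f^n(v)` tends to infinity with `n`; and `f` has no positive upper
Lyapunov exponent at `v`. -/
def PartA (f : OnePoint ℂ → OnePoint ℂ) : Prop :=
  ∀ c, IsCritical f c → c ∈ julia f →
    (∀ δ : ℝ, 0 < δ → ∀ D : ℕ, {n : ℕ | (criticalTimes f (disc (f^[n] (f c)) δ) (f c) n).ncard ≤ D}.Finite) ∧
      ¬ HasPositiveUpperExponent f (f c)

/-- For `r, δ > 0` and `D` there is `N` such that for `n ≥ N` and `x` in `postcritical f`: if the disc of radius `r` at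
`f^n(x)` has at most `D` critical times along `x, .., f^n(x)`, then `f^n(x)` is `δ`-near a point `y` of `postcritical f`
whose connected component in `postcritical f` is not contained in the disc of radius `r` at `y` (so, if `postcritical f`
is totally disconnected, the number of critical times tends to infinity with `n`, uniformly in `x`). -/
def PartB (f : OnePoint ℂ → OnePoint ℂ) : Prop :=
  ∀ r : ℝ, 0 < r → ∀ δ : ℝ, 0 < δ → ∀ D : ℕ, ∃ N : ℕ, ∀ n, N ≤ n → ∀ x ∈ postcritical f,
    (criticalTimes f (disc (f^[n] x) r) x n).ncard ≤ D →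
      ∃ y ∈ postcritical f, chordal (f^[n] x) y < δ ∧ ¬ connectedComponentIn (postcritical f) y ⊆ disc y r

/-- The connected component of every periodic point of `postcritical f` in `postcritical f` is not a point, and if the
upper exponent of `f` at a point `x` of `postcritical f` is positive, then the limit set of `x` meets a connected
component of `postcritical f` which is not a point. -/
def PartC (f : OnePoint ℂ → OnePoint ℂ) : Prop :=
  (∀ x ∈ postcritical f, ∀ p : ℕ, 0 < p → f^[p] x = x → connectedComponentIn (postcritical f) x ≠ {x}) ∧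
    ∀ x ∈ postcritical f, HasPositiveUpperExponent f x →
      ∃ y ∈ limitSet f x, y ∈ postcritical f ∧ connectedComponentIn (postcritical f) y ≠ {y}

/-- Every critical point `c` in the Julia set is in the limit set of a critical point `r` in the Julia set which is
recurrent (in its own limit set), and the connected component of `c` in `postcritical f` meets the limit set of `c`
(so `c` is recurrent if `postcritical f` is totally disconnected). -/
def PartD (f : OnePoint ℂ → OnePoint ℂ) : Prop :=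
  ∀ c, IsCritical f c → c ∈ julia f →
    (∃ r, IsCritical f r ∧ r ∈ julia f ∧ r ∈ limitSet f r ∧ c ∈ limitSet f r) ∧
      (connectedComponentIn (postcritical f) c ∩ limitSet f c).Nonempty

/-- Every nonempty closed subset of `postcritical f` which is mapped into itself meets a connected component of
`postcritical f` which separates the sphere or which contains a critical point (so it contains a critical point if
`postcritical f` is totally disconnected). -/
def PartE (f : OnePoint ℂ → OnePoint ℂ) : Prop :=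
  ∀ L ⊆ postcritical f, IsClosed L → L.Nonempty → (∀ x ∈ L, f x ∈ L) → ∃ x ∈ L,
    ¬ IsPreconnected (connectedComponentIn (postcritical f) x)ᶜ ∨
      ∃ c ∈ connectedComponentIn (postcritical f) x, IsCritical f c

/-- `M` is minimal: nonempty, closed, mapped into itself, and no smaller nonempty closed set is mapped into itself. -/
def IsMinimal (f : OnePoint ℂ → OnePoint ℂ) (M : Set (OnePoint ℂ)) : Prop :=
  (M.Nonempty ∧ IsClosed M ∧ ∀ x ∈ M, f x ∈ M) ∧
    ∀ L ⊆ M, IsClosed L → L.Nonempty → (∀ x ∈ L, f x ∈ L) → L = M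

/-- If `postcritical f` is totally disconnected then every critical point `c` in the Julia set lies in its limit set,
which is minimal; two of these limit sets are equal or disjoint, and `postcritical f` is their union (so it is a finite
disjoint union of minimal sets, each of which contains a critical point). -/
def PartF (f : OnePoint ℂ → OnePoint ℂ) : Prop :=
  IsTotallyDisconnected (postcritical f) →
    (∀ c, IsCritical f c → c ∈ julia f → c ∈ limitSet f c ∧ IsMinimal f (limitSet f c)) ∧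
      (∀ c, IsCritical f c → c ∈ julia f → ∀ c', IsCritical f c' → c' ∈ julia f →
        limitSet f c = limitSet f c' ∨ Disjoint (limitSet f c) (limitSet f c')) ∧
      postcritical f = ⋃ c ∈ {c | IsCritical f c ∧ c ∈ julia f}, limitSet f c

/-- `f` has entropy zero on every closed part `A` of `postcritical f` which is mapped into itself and which does not meet
the connected components of `postcritical f` with more than one point (so on `postcritical f` if it is totally
disconnected): for `q > 1`, `r > 0` and all large `n` there are at most `q^n` points of `A` such that the orbit of length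
`n` of every point of `A` is `r`-near the orbit of one of them. -/
def PartG (f : OnePoint ℂ → OnePoint ℂ) : Prop :=
  ∀ A ⊆ postcritical f, IsClosed A → (∀ x ∈ A, f x ∈ A) → (∀ x ∈ A, connectedComponentIn (postcritical f) x = {x}) →
    ∀ q : ℝ, 1 < q → ∀ r : ℝ, 0 < r → ∀ᶠ n : ℕ in atTop, ∃ T ⊆ A, T.Finite ∧ (T.ncard : ℝ) ≤ q ^ n ∧
      ∀ x ∈ A, ∃ y ∈ T, ∀ k < n, chordal (f^[k] x) (f^[k] y) < r

/-- The seven properties. -/
def JuliaPersistent (f : OnePoint ℂ → OnePoint ℂ) : Prop :=
  PartA f ∧ PartB f ∧ PartC f ∧ PartD f ∧ PartE f ∧ PartF f ∧ PartG f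

/-- `f` and `g` are topologically conjugate. -/
def AreConjugate (f g : OnePoint ℂ → OnePoint ℂ) : Prop :=
  ∃ h : OnePoint ℂ ≃ₜ OnePoint ℂ, ∀ x, h (f x) = g (h x)

/-- The polynomial of degree at most `d` with coefficients `v`. -/
noncomputable def poly {d : ℕ} (v : Fin (d + 1) → ℂ) : Polynomial ℂ := ∑ i, C (v i) * X ^ (i : ℕ)

/-- Pairs of polynomials `P`, `Q` with `deg P ≤ d`, `deg Q ≤ d - m`, given by their coefficients. -/
abbrev Pairs (d m : ℕ) : Type := (Fin (d + 1) → ℂ) × (Fin (d - m + 1) → ℂ)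

/-- `f = P/Q` is the rational map of degree exactly `d` given by the pair `v = (P, Q)` of coprime
polynomials, `deg Q ≤ d - m`. For `m = 0` these are all rational maps of degree `d`, for `m ≥ 1` those
which fix infinity with local degree at least `m`, for `m = d` the polynomials (up to the constant `Q`). -/
def IsRational {d m : ℕ} (v : Pairs d m) (f : OnePoint ℂ → OnePoint ℂ) : Prop :=
  IsCoprime (poly v.1) (poly v.2) ∧ max (poly v.1).natDegree (poly v.2).natDegree = d ∧
    IsMap f (poly v.1) (poly v.2)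

theorem chord_eq (x y : OnePoint ℂ) : chordal x y = Pool.Agent.H35.EX.chord x y := by
  induction x using OnePoint.rec with
  | infty =>
    induction y using OnePoint.rec with
    | infty => rfl
    | coe y => rfl
  | coe x =>
    induction y using OnePoint.rec with
    | infty => rfl
    | coe y => rfl

theorem julia_eq (f : OnePoint ℂ → OnePoint ℂ) : julia f = Pool.Agent.H44.RC.JS f := by
  unfold julia Pool.Agent.H44.RC.JS Pool.Agent.H56.HR.FS Pool.Agent.H56.HR.EqAt
  simp only [chord_eq]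

theorem att_iff {f : OnePoint ℂ → OnePoint ℂ} {c : OnePoint ℂ} :
    Pool.Agent.H32.BT.Att f c ↔ IsAttracted f c := by
  constructor
  · rintro ⟨z, n, ⟨h1, h2, h3⟩, h4⟩
    exact ⟨z, n, h1, h2, h3, h4⟩
  · rintro ⟨z, n, h1, h2, h3, h4⟩
    exact ⟨z, n, ⟨h1, h2, h3⟩, h4⟩

theorem number_eq {d : ℕ} (v : Pool.Agent.H79.Eul.E d) :
    attractedNumber (Pool.Agent.H79.Par.Rf v) = Pool.Agent.H79.ES.NA v := by
  unfold attractedNumber Pool.Agent.H79.ES.NA
  congr 1
  ext c
  exact and_congr Iff.rfl att_iff.symm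

theorem map_eq {d m : ℕ} (hd : 2 ≤ d) {v : Pairs d m} {f : OnePoint ℂ → OnePoint ℂ} (h : IsRational v f) :
    f = Pool.Agent.H79.Par.Rf (Pool.Agent.H47.NM.ex d m v) := by
  obtain ⟨h1, h2, h3⟩ := h
  have h1' : IsCoprime (Pool.Agent.H79.Eul.pol v.1) (Pool.Agent.H79.Eul.pol v.2) := h1
  have h2' : max (Pool.Agent.H79.Eul.pol v.1).natDegree (Pool.Agent.H79.Eul.pol v.2).natDegree = d := h2
  have hB0 : Pool.Agent.H79.Eul.pol v.2 ≠ 0 := Pool.Agent.H32.BT.den_ne_zero h1' (by omega)
  have h4 := Pool.Agent.H32.RB.ext_eq h1' hB0 h3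
  unfold Pool.Agent.H79.Par.Rf
  rw [(Pool.Agent.H47.NM.ex_pol v).1, (Pool.Agent.H47.NM.ex_pol v).2]
  exact h4

theorem rat_is {d m : ℕ} {v : Pairs d m} (h1 : IsCoprime (poly v.1) (poly v.2))
    (h2 : max (poly v.1).natDegree (poly v.2).natDegree = d) : IsRational v
      (Pool.Agent.H79.Par.Rf (Pool.Agent.H47.NM.ex d m v)) := by
  have h1' : IsCoprime (Pool.Agent.H79.Eul.pol v.1) (Pool.Agent.H79.Eul.pol v.2) := h1
  unfold Pool.Agent.H79.Par.Rf
  rw [(Pool.Agent.H47.NM.ex_pol v).1, (Pool.Agent.H47.NM.ex_pol v).2]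
  refine ⟨h1, h2, Pool.Agent.H44.Fatou.rat_continuous h1', fun z hz => ?_⟩
  exact Pool.Agent.H44.Fatou.rat_coe_of_ne hz

theorem ct_eq (f : OnePoint ℂ → OnePoint ℂ) (x : OnePoint ℂ) (n : ℕ) (δ : ℝ) :
    Pool.Agent.H3.NC.CT f x n δ = criticalTimes f (disc (f^[n] x) δ) x n := by
  unfold Pool.Agent.H3.NC.CT criticalTimes Pool.Agent.H3.NC.Wk pullback disc
  simp only [chord_eq]
  rfl

theorem ce_eq (f : OnePoint ℂ → OnePoint ℂ) (E : Set (OnePoint ℂ)) (x : OnePoint ℂ) (n : ℕ) :
    Pool.Agent.H3.UP.CE f E x n = criticalTimes f E x n := rfl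

theorem kj_eq (f : OnePoint ℂ → OnePoint ℂ) :
    Pool.Agent.H64.JS.KJ {c | Pool.Agent.H32.BT.IsCrit f c} (Pool.Agent.H44.RC.JS f) f = postcritical f := by
  unfold postcritical
  rw [julia_eq]
  rfl

theorem pue_iff (f : OnePoint ℂ → OnePoint ℂ) (x : OnePoint ℂ) :
    Pool.Agent.H56.UE.PUE f x ↔ HasPositiveUpperExponent f x := by
  unfold Pool.Agent.H56.UE.PUE HasPositiveUpperExponent
  simp only [chord_eq]

theorem limit_eq (f : OnePoint ℂ → OnePoint ℂ) (x : OnePoint ℂ) :
    limitSet f x = Pool.Agent.H44.RC.Om f x := by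
  ext y
  exact mapClusterPt_iff_frequently

theorem pe_of {f : OnePoint ℂ → OnePoint ℂ} (hf : Continuous f) (h : Pool.Agent.H44.CP.ConcP f)
    (h2 : ∀ c, IsCritical f c → c ∈ julia f →
      (connectedComponentIn (postcritical f) c ∩ Pool.Agent.H64.JS.OC f c).Nonempty) : PartD f := by
  intro c hc hJ
  have h3 := h2 c hc hJ
  refine ⟨?_, Pool.Agent.H64.JS.cmp_om hf isClosed_closure (Pool.Agent.H64.JS.kj_inv hf) h3⟩
  rw [julia_eq] at hJ
  obtain ⟨r, e1, e2, e3, e4⟩ := h.1 c hc hJ
  refine ⟨r, e1, ?_, ?_, ?_⟩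
  · rw [julia_eq]; exact e2
  · rw [limit_eq]; exact e3
  · rw [limit_eq]; exact e4

theorem meets_of {d : ℕ} {v : Pool.Agent.H79.Eul.E d} (h : Pool.Agent.H64.PF.Meet v) :
    ∀ c, IsCritical (Pool.Agent.H79.Par.Rf v) c → c ∈ julia (Pool.Agent.H79.Par.Rf v) →
      (connectedComponentIn (postcritical (Pool.Agent.H79.Par.Rf v)) c ∩
        Pool.Agent.H64.JS.OC (Pool.Agent.H79.Par.Rf v) c).Nonempty := by
  intro c hc hJ
  rw [julia_eq] at hJ
  have h3 := h c hc hJ
  unfold postcritical
  rw [julia_eq]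
  exact h3

theorem rf_rat {d : ℕ} (w : Pool.Agent.H79.Eul.E d) : Pool.Agent.H79.Par.Rf w =
    Pool.Agent.H44.Fatou.rat (Pool.Agent.H79.Eul.pol w.1) (Pool.Agent.H79.Eul.pol w.2) := rfl

theorem pf_of {f : OnePoint ℂ → OnePoint ℂ} (h : Pool.Agent.H39.HO.NFP f) : PartE f := by
  intro L hL hc hn hi
  rw [← kj_eq] at hL ⊢
  exact h L hL hc hn hi

theorem pg_of {f : OnePoint ℂ → OnePoint ℂ} (h :
    IsTotallyDisconnected (Pool.Agent.H64.JS.KJ {c | Pool.Agent.H32.BT.IsCrit f c} (Pool.Agent.H44.RC.JS f) f) →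
      Pool.Agent.H39.EMB.DEC f) : PartF f := by
  intro htd
  rw [← kj_eq] at htd
  have hD := h htd
  refine ⟨fun c hc hcJ => ?_, fun c hc hcJ c' hc' hcJ' => ?_, ?_⟩
  · rw [julia_eq] at hcJ
    rw [limit_eq]
    have h1 := hD.min c hc hcJ
    exact ⟨hD.own c hc hcJ, ⟨h1.ne, h1.cl, h1.inv⟩, h1.min⟩
  · rw [julia_eq] at hcJ hcJ'
    rw [limit_eq, limit_eq]
    exact hD.eqd c c' hc hcJ hc' hcJ'
  · rw [← kj_eq, hD.dec, julia_eq]
    simp only [limit_eq]
    rfl

/-- The first four properties follow from the persistent recurrence of the critical points of the Julia set. -/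
theorem jp_of {d : ℕ} (hd : 2 ≤ d) {w : Pool.Agent.H79.Eul.E d}
    (hcop : IsCoprime (Pool.Agent.H79.Eul.pol w.1) (Pool.Agent.H79.Eul.pol w.2))
    (hdeg : max (Pool.Agent.H79.Eul.pol w.1).natDegree (Pool.Agent.H79.Eul.pol w.2).natDegree = d)
    (hfat : ∀ c, Pool.Agent.H32.BT.IsCrit (Pool.Agent.H79.Par.Rf w) c →
      c ∉ Pool.Agent.H44.RC.JS (Pool.Agent.H79.Par.Rf w) → ∃ (δ : ℝ) (N : ℕ), 0 < δ ∧ ∀ n, N ≤ n →
      ∀ y ∈ Pool.Agent.H44.RC.JS (Pool.Agent.H79.Par.Rf w), δ ≤ Pool.Agent.H35.EX.chord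
        ((Pool.Agent.H79.Par.Rf w)^[n] c) y)
    (h1 : ∀ c, Pool.Agent.H32.BT.IsCrit (Pool.Agent.H79.Par.Rf w) c →
      c ∈ Pool.Agent.H44.RC.JS (Pool.Agent.H79.Par.Rf w) → Pool.Agent.H3.NC.PR (Pool.Agent.H79.Par.Rf w) c)
    (hper : ∀ x ∈ Pool.Agent.H44.RC.JS (Pool.Agent.H79.Par.Rf w), ∀ p : ℕ, 0 < p →
      (Pool.Agent.H79.Par.Rf w)^[p] x = x → Pool.Agent.H56.UE.PUE (Pool.Agent.H79.Par.Rf w) x)
    (hE : PartD (Pool.Agent.H79.Par.Rf w)) (hF : PartE (Pool.Agent.H79.Par.Rf w)) (hG : PartF (Pool.Agent.H79.Par.Rf w)) :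
    JuliaPersistent (Pool.Agent.H79.Par.Rf w) := by
  have hd1 : 1 ≤ max (Pool.Agent.H79.Eul.pol w.1).natDegree (Pool.Agent.H79.Eul.pol w.2).natDegree := by
    rw [hdeg]; omega
  have hf : Continuous (Pool.Agent.H79.Par.Rf w) := Pool.Agent.H44.Fatou.rat_continuous hcop
  have hfin : {c | Pool.Agent.H32.BT.IsCrit (Pool.Agent.H79.Par.Rf w) c}.Finite :=
    Pool.Agent.H32.BT.crit_finite hcop hd1
  have hJc := Pool.Agent.H47.RJ.js_closed (Pool.Agent.H79.Par.Rf w)
  have hJi : ∀ x ∈ Pool.Agent.H44.RC.JS (Pool.Agent.H79.Par.Rf w),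
      Pool.Agent.H79.Par.Rf w x ∈ Pool.Agent.H44.RC.JS (Pool.Agent.H79.Par.Rf w) :=
    fun x hx hF => hx ((Pool.Agent.H47.RJ.fs_iff (by omega) hcop hdeg 1 x).1 hF)
  refine ⟨fun c hc hcJ => ?_, fun r hr δ hδ D => ?_, ⟨fun x hx p hp0 hpx => ?_, fun x hx hp => ?_⟩, hE, hF, hG,
    fun A hA hAc hAi hAt q hq r hr => ?_⟩
  · rw [julia_eq] at hcJ
    have h3 := h1 c hc hcJ
    refine ⟨fun δ hδ D => ?_, fun h4 => ?_⟩
    · simp only [← ct_eq]
      exact h3 δ hδ D
    · exact Pool.Agent.H56.UE.pr_pue hcop hd1 h3 ((pue_iff _ _).2 h4)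
  · obtain ⟨N, hN⟩ := Pool.Agent.H56.ZE.conr hf hfin hJc hJi hfat h1 (r := r) hδ D
    rw [kj_eq] at hN
    refine ⟨N, fun n hn x hx hle => ?_⟩
    rw [← ct_eq] at hle
    obtain ⟨y, hy, h2, z, hz, h3⟩ := hN n hn x hx hle
    refine ⟨y, hy, by rw [chord_eq]; exact h2, fun h4 => ?_⟩
    have h5 : chordal z y < r := h4 hz
    rw [chord_eq, Pool.Agent.H35.EX.chord_comm] at h5
    linarith
  · have hK := kj_eq (Pool.Agent.H79.Par.Rf w)
    have hxK := hx
    rw [← hK] at hxK ⊢
    exact Pool.Agent.H39.CTN.per_comp hcop hd1 hf hfin hJc hJi hfat h1 hxK hp0 hpx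
      (hper x (Pool.Agent.H64.JS.kj_sub hJc hJi hxK) p hp0 hpx)
  · have hK := kj_eq (Pool.Agent.H79.Par.Rf w)
    have hxK := hx
    rw [← hK] at hxK
    have hp' : Pool.Agent.H56.UE.PUE (Pool.Agent.H79.Par.Rf w) x := (pue_iff _ _).2 hp
    obtain ⟨y, hy, hc⟩ := Pool.Agent.H3.UP.exu hcop hd1 hf hfin hJc hJi hfat h1 hxK hp'
    refine ⟨y, hy, ?_, ?_⟩
    · have h2 : ∀ n : ℕ, (Pool.Agent.H79.Par.Rf w)^[n] x ∈ postcritical (Pool.Agent.H79.Par.Rf w) := by
        intro n
        rw [← hK] at hx ⊢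
        exact Pool.Agent.H3.UP.kj_it hf hx n
      have h3 : IsClosed (postcritical (Pool.Agent.H79.Par.Rf w)) := isClosed_closure
      rw [← h3.closure_eq, mem_closure_iff_nhds]
      intro U hU
      obtain ⟨n, hn⟩ := (hy.frequently hU).exists
      exact ⟨_, hn, h2 n⟩
    · rw [← hK]
      exact hc
  · have hK := kj_eq (Pool.Agent.H79.Par.Rf w)
    have hit : ∀ n : ℕ, ∀ x ∈ A, (Pool.Agent.H79.Par.Rf w)^[n] x ∈ A := by
      intro n
      induction n with
      | zero => exact fun x hx => hx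
      | succ n ih =>
        intro x hx
        rw [Function.iterate_succ_apply']
        exact hAi _ (ih x hx)
    have hAn : A ≠ Set.univ := by
      intro h0
      have h2 : postcritical (Pool.Agent.H79.Par.Rf w) = Set.univ := Set.eq_univ_of_univ_subset (h0 ▸ hA)
      have h3 := hAt OnePoint.infty (by rw [h0]; exact Set.mem_univ _)
      rw [h2, (isPreconnected_univ (α := OnePoint ℂ)).connectedComponentIn (Set.mem_univ _)] at h3
      have h4 : ((0 : ℂ) : OnePoint ℂ) ∈ ({OnePoint.infty} : Set (OnePoint ℂ)) := h3 ▸ Set.mem_univ _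
      exact OnePoint.coe_ne_infty (0 : ℂ) h4
    have hpue : ∀ x ∈ A, ¬ Pool.Agent.H56.UE.PUE (Pool.Agent.H79.Par.Rf w) x := by
      intro x hx hp
      have hxK := hA hx
      rw [← hK] at hxK
      obtain ⟨y, hy, hc⟩ := Pool.Agent.H3.UP.exu hcop hd1 hf hfin hJc hJi hfat h1 hxK hp
      refine hc ?_
      show connectedComponentIn (Pool.Agent.H64.JS.KJ {c | Pool.Agent.H32.BT.IsCrit (Pool.Agent.H79.Par.Rf w) c}
        (Pool.Agent.H44.RC.JS (Pool.Agent.H79.Par.Rf w)) (Pool.Agent.H79.Par.Rf w)) y = {y}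
      rw [hK]
      refine hAt y ?_
      rw [← hAc.closure_eq, mem_closure_iff_nhds]
      intro U hU
      obtain ⟨n, hn⟩ := (hy.frequently hU).exists
      exact ⟨_, hn, hit n x hx⟩
    filter_upwards [Pool.Agent.H56.ZE.ent_sph hd hcop hdeg hAc hAn hAi hpue hq hr] with n hn
    obtain ⟨T, e1, e2, e3, e4⟩ := hn
    refine ⟨T, e1, e2, e3, fun x hx => ?_⟩
    obtain ⟨y, hy, h5⟩ := e4 x hx
    refine ⟨y, hy, fun k hk => ?_⟩
    rw [chord_eq]
    exact h5 k hk

/-- The dichotomy for one map. -/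
theorem dich {d m : ℕ} (hd : 2 ≤ d) (hm : m ≤ d) {v : Pairs d m}
    {f : OnePoint ℂ → OnePoint ℂ} (hf : IsRational v f) :
    JuliaPersistent f ∨
      ∀ ε : ℝ, 0 < ε → ∃ w ∈ Metric.ball v ε, ∃ g, IsRational w g ∧ attractedNumber f < attractedNumber g := by
  have h1 := hf.1
  have h2 := hf.2.1
  have hfe := map_eq hd hf
  subst hfe
  by_cases hup : Pool.Agent.H57.CF.UpF d m v
  · right
    intro ε hε
    obtain ⟨w, hw, h3, h4, h5⟩ := hup ε hε
    refine ⟨w, hw, _, rat_is h3 h4, ?_⟩
    rw [number_eq, number_eq]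
    exact h5
  · left
    exact jp_of hd (Pool.Agent.H57.CF.ex_cop h1) (Pool.Agent.H57.CF.ex_deg h2)
      (Pool.Agent.H3.UP.fat_fam hd hm h1 h2 hup) (Pool.Agent.H64.NC.pr_end hd hm h1 h2 hup)
      (fun x hx p hp hper => Pool.Agent.H64.NC.per_pue hd hm h1 h2 hup hx hp hper)
      (pe_of (Pool.Agent.H44.Fatou.rat_continuous (Pool.Agent.H57.CF.ex_cop h1))
        (Pool.Agent.H64.PE.conc_fam hd hm h1 h2 hup) (meets_of (Pool.Agent.H64.PE.meet_fam hd hm h1 h2 hup)))
      (pf_of (Pool.Agent.H39.HO.nfp_all hd hm h1 h2 hup))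
      (pg_of (Pool.Agent.H39.EMB.dec_full hd hm h1 h2 hup))

/-- The exceptional maps are nowhere dense. -/
theorem exc_nwd {d m : ℕ} (hd : 2 ≤ d) (hm : m ≤ d) :
    IsNowhereDense {v : Pairs d m | ∃ f : OnePoint ℂ → OnePoint ℂ, IsRational v f ∧ ¬ JuliaPersistent f} := by
  refine (Pool.Agent.H57.CF.upF_nwd hd).mono ?_
  rintro v ⟨f, hf, hn⟩
  refine ⟨hf.1, hf.2.1, fun ε hε => ?_⟩
  have hfe := map_eq hd hf
  subst hfe
  obtain ⟨w, hw, g, hg, hlt⟩ := (dich hd hm hf).resolve_left hn ε hε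
  have hge := map_eq hd hg
  subst hge
  refine ⟨w, hw, hg.1, hg.2.1, ?_⟩
  rw [number_eq, number_eq] at hlt
  exact hlt

/-- Conjugate maps have the same number of attracted critical points. -/
theorem number_conj {f g : OnePoint ℂ → OnePoint ℂ} (h : AreConjugate f g) :
    attractedNumber f = attractedNumber g := by
  obtain ⟨φ, hφ⟩ := h
  unfold attractedNumber
  have h1 : {c : OnePoint ℂ | IsCritical g c ∧ IsAttracted g c} =
      φ '' {c : OnePoint ℂ | IsCritical f c ∧ IsAttracted f c} := by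
    ext y
    obtain ⟨x, rfl⟩ := φ.surjective y
    have h2 : IsCritical g (φ x) ↔ IsCritical f x :=
      Pool.Agent.H32.BT.isCrit_conj φ (fun y => (hφ y).symm) x
    have h3 := Pool.Agent.H32.BT.att_conj φ (fun y => (hφ y).symm) x
    rw [att_iff, att_iff] at h3
    constructor
    · rintro ⟨h4, h5⟩
      exact ⟨x, ⟨h2.1 h4, h3.1 h5⟩, rfl⟩
    · rintro ⟨z, ⟨h4, h5⟩, he⟩
      rw [φ.injective he] at h4 h5
      exact ⟨h2.2 h4, h3.2 h5⟩
  rw [h1, Set.ncard_image_of_injective _ φ.injective]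

theorem stable {d m : ℕ} (hd : 2 ≤ d) (hm : m ≤ d) {v : Pairs d m}
    {f : OnePoint ℂ → OnePoint ℂ} (hf : IsRational v f) {ε : ℝ} (hε : 0 < ε)
    (hs : ∀ w ∈ Metric.ball v ε, ∀ g, IsRational w g → AreConjugate f g) : JuliaPersistent f := by
  refine (dich hd hm hf).resolve_right fun h => ?_
  obtain ⟨w, hw, g, hg, hlt⟩ := h ε hε
  exact hlt.ne (number_conj (hs w hw g hg))

/-- Let `2 ≤ d`, `m ≤ d`, and consider the rational maps `f = P/Q` of degree `d` with `deg Q ≤ d - m`
(`m = 0`: all rational maps of degree `d`; `m = d`: all polynomials of degree `d`).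
(1) If all maps of the family near `f` are topologically conjugate to `f` then `f` has the seven properties
`PartA`, `PartB`, `PartC`, `PartD`, `PartE`, `PartF`, `PartG`. (2) EVERY `f` has these properties,
or there are maps of the family arbitrarily near `f` with more critical points which are attracted by attracting cycles.
(3) The maps which do not have these properties are nowhere dense. -/
theorem result (d m : ℕ) (hd : 2 ≤ d) (hm : m ≤ d) :
    (∀ (v : Pairs d m) (f : OnePoint ℂ → OnePoint ℂ), IsRational v f →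
      (∃ ε : ℝ, 0 < ε ∧ ∀ w ∈ Metric.ball v ε, ∀ g, IsRational w g → AreConjugate f g) → JuliaPersistent f) ∧
    (∀ (v : Pairs d m) (f : OnePoint ℂ → OnePoint ℂ), IsRational v f →
      JuliaPersistent f ∨
        ∀ ε : ℝ, 0 < ε → ∃ w ∈ Metric.ball v ε, ∃ g, IsRational w g ∧ attractedNumber f < attractedNumber g) ∧
    IsNowhereDense {v : Pairs d m | ∃ f : OnePoint ℂ → OnePoint ℂ, IsRational v f ∧ ¬ JuliaPersistent f} :=
  ⟨fun _ _ hf h => by
    obtain ⟨ε, hε, hs⟩ := h
    exact stable hd hm hf hε hs, fun _ _ hf => dich hd hm hf, exc_nwd hd hm⟩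

end Pool.Agent.Results.MP_8f2e1c_an.PersistentRecurrence
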